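import Pool.Agent.P.MP_4a6a31_lc.NoRef

/-! The forest of atoms with ordered rational fibres. -/

namespace Pool.Agent.P.MP_4a6a31_lc.OP

universe u

open Equiv VV

/-- `z` and `z'` lie in the same gap of `A`. -/
def SG (A : Set ℚ) (z z' : ℚ) : Prop := ∀ q ∈ A, (q < z ∧ q < z') ∨ (z < q ∧ z' < q)

theorem homog {A : Set ℚ} (hA : A.Finite) {z z' : ℚ} (h : SG A z z') :
    ∃ φ : ℚ ≃o ℚ, (∀ q ∈ A, φ q = q) ∧ φ z = z' := by
  classical
  have hc : ∀ q ∈ A, cmp q z = cmp q z' := fun q hq => by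
    rcases h q hq with h | h
    · rw [(cmp_eq_lt_iff _ _).2 h.1, (cmp_eq_lt_iff _ _).2 h.2]
    · rw [(cmp_eq_gt_iff _ _).2 h.1, (cmp_eq_gt_iff _ _).2 h.2]
  let f0 : Order.PartialIso ℚ ℚ := ⟨insert (z, z') (hA.toFinset.image fun q => (q, q)), by
    simp only [Finset.mem_insert, Finset.mem_image, Set.Finite.mem_toFinset]
    rintro _ (rfl | ⟨q, hq, rfl⟩) _ (rfl | ⟨q', hq', rfl⟩)
    · simp
    · rw [← cmp_swap, hc q' hq', cmp_swap]
    · exact hc q hq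
    · rfl⟩
  let tc : ℚ ⊕ ℚ → Order.Cofinal (Order.PartialIso ℚ ℚ) := fun p =>
    Sum.recOn p (Order.PartialIso.definedAtLeft ℚ) (Order.PartialIso.definedAtRight ℚ)
  let J : Order.Ideal (Order.PartialIso ℚ ℚ) := Order.idealOfCofinals f0 tc
  let F a := Order.PartialIso.funOfIdeal a J
    (Order.cofinal_meets_idealOfCofinals _ tc (Sum.inl a))
  let G b := Order.PartialIso.invOfIdeal b J
    (Order.cofinal_meets_idealOfCofinals _ tc (Sum.inr b))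
  have key : ∀ p ∈ f0.val, (F p.1).val = p.2 := fun p hp => by
    obtain ⟨f, hf, ha⟩ := (F p.1).prop
    obtain ⟨m, -, fm, gm⟩ := J.directed _ hf _ (Order.mem_idealOfCofinals f0 tc)
    have := m.prop (p.1, _) (fm ha) p (gm hp)
    rw [cmp_self_eq_eq] at this
    exact (cmp_eq_eq_iff _ _).1 this.symm
  refine ⟨OrderIso.ofCmpEqCmp (fun a => (F a).val) (fun b => (G b).val) fun a b => ?_,
    fun q hq => key (q, q) ?_, key (z, z') (Finset.mem_insert_self _ _)⟩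
  · obtain ⟨f, hf, ha⟩ := (F a).prop
    obtain ⟨g, hg, hb⟩ := (G b).prop
    obtain ⟨m, -, fm, gm⟩ := J.directed _ hf _ hg
    exact m.prop (a, _) (fm ha) (_, b) (gm hb)
  · exact Finset.mem_insert_of_mem (Finset.mem_image.2 ⟨q, hA.mem_toFinset.2 hq, rfl⟩)

theorem near {A : Set ℚ} (hA : A.Finite) {x x' : ℚ} (hx : x ∉ A) (h : x ≠ x') :
    ∃ z, SG A x z ∧ SG {x} z x' := by
  have h1 : ∀ᶠ z in nhds x, SG A x z := hA.eventually_all.2 fun q hq => by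
    rcases lt_or_gt_of_ne (fun e : q = x => hx (e ▸ hq)) with h | h
    · exact (eventually_gt_nhds h).mono fun z hz => Or.inl ⟨h, hz⟩
    · exact (eventually_lt_nhds h).mono fun z hz => Or.inr ⟨h, hz⟩
  rcases lt_or_gt_of_ne h with h | h
  · obtain ⟨z, hz, hz'⟩ := ((h1.filter_mono (nhdsWithin_le_nhds (s := Set.Ioi x))).and
      self_mem_nhdsWithin).exists
    exact ⟨z, hz, fun q hq => Or.inl (by rw [hq]; exact ⟨hz', h⟩)⟩
  · obtain ⟨z, hz, hz'⟩ := ((h1.filter_mono (nhdsWithin_le_nhds (s := Set.Iio x))).and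
      self_mem_nhdsWithin).exists
    exact ⟨z, hz, fun q hq => Or.inr (by rw [hq]; exact ⟨hz', h⟩)⟩

abbrev Wq : Type (u + 1) := List (Ordinal.{u} × ℚ)

/-- Atoms: a word and a column. -/
abbrev Aq (I : Type u) : Type (u + 1) := Wq.{u} × I

variable {I : Type u}

def nq (a : Aq I) : Nd.{u} := a.1.map Prod.fst

def pq (a : Aq I) : Aq I := (a.1.tail, a.2)

def hd (a : Aq I) : ℚ := (a.1.headD (0, 0)).2

theorem nq_nil {a : Aq I} : nq a = [] ↔ a.1 = [] := List.map_eq_nil_iff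

theorem aq_ext {a b : Aq I} (h1 : pq a = pq b) (h2 : nq a = nq b) (h3 : hd a = hd b) : a = b := by
  obtain ⟨w, i⟩ := a
  obtain ⟨v, j⟩ := b
  obtain ⟨e1, e2⟩ := Prod.mk.inj h1
  refine Prod.ext ?_ e2
  cases w <;> cases v
  · rfl
  · cases h2
  · cases h2
  · exact congrArg₂ List.cons (Prod.ext (List.cons.inj h2).1 h3) e1

/-- Parents and the order of the fibres are kept. -/
def Tr (g : Perm (Aq I)) : Prop := (∀ a, g (pq a) = pq (g a)) ∧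
  ∀ a b, pq a = pq b → nq a = nq b → hd a < hd b → hd (g a) < hd (g b)

def GQ (I : Type u) : Set (Perm (Aq I)) :=
  {g | Tr g ∧ ∃ τ, TA τ ∧ ∀ a, nq (g a) = τ (nq a)}

def FQ (F : Set (Aq I)) : Set (Perm (Aq I)) :=
  {g | Tr g ∧ (∀ a, nq (g a) = nq a) ∧ ∀ a ∈ F, g a = a}

theorem Tr.mul {g g' : Perm (Aq I)} (h : Tr g) (h' : Tr g')
    (hn : ∀ a b, nq a = nq b → nq (g' a) = nq (g' b)) : Tr (g * g') :=
  ⟨fun a => by rw [Perm.mul_apply, h'.1, h.1, Perm.mul_apply], fun a b h1 h2 h3 =>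
    h.2 _ _ (by rw [← h'.1, ← h'.1, h1]) (hn a b h2) (h'.2 a b h1 h2 h3)⟩

theorem GQ_nq {g : Perm (Aq I)} (h : g ∈ GQ I) (a b : Aq I) (e : nq a = nq b) :
    nq (g a) = nq (g b) := by
  obtain ⟨-, τ, -, h3⟩ := h
  rw [h3, h3, e]

theorem GQ_inv {g : Perm (Aq I)} (h : g ∈ GQ I) : g⁻¹ ∈ GQ I := by
  obtain ⟨h1, τ, h2, h3⟩ := h
  have e1 : ∀ a, g⁻¹ (pq a) = pq (g⁻¹ a) := fun a => by
    rw [Perm.inv_eq_iff_eq, h1.1]
    simp
  have e2 : ∀ a, nq (g⁻¹ a) = τ⁻¹ (nq a) := fun a => by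
    rw [Perm.eq_inv_iff_eq, ← h3]
    simp
  refine ⟨⟨e1, fun a b k1 k2 k3 => ?_⟩, τ⁻¹, h2.inv, e2⟩
  have k4 : pq (g⁻¹ a) = pq (g⁻¹ b) := by rw [← e1, ← e1, k1]
  have k5 : nq (g⁻¹ a) = nq (g⁻¹ b) := by rw [e2, e2, k2]
  rcases lt_trichotomy (hd (g⁻¹ a)) (hd (g⁻¹ b)) with k | k | k
  · exact k
  · rw [(g⁻¹).injective (aq_ext k4 k5 k)] at k3
    exact (lt_irrefl _ k3).elim
  · have := h1.2 _ _ k4.symm k5.symm k
    simp only [Perm.coe_inv, apply_symm_apply] at this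
    exact (lt_asymm this k3).elim

theorem FQ_sub {F : Set (Aq I)} {g : Perm (Aq I)} (h : g ∈ FQ F) : g ∈ GQ I :=
  ⟨h.1, 1, ⟨rfl, fun l _ => ⟨l, rfl⟩⟩, h.2.1⟩

theorem FQ_mono {F F' : Set (Aq I)} (h : F ⊆ F') : FQ F' ⊆ FQ F :=
  fun _ hg => ⟨hg.1, hg.2.1, fun a ha => hg.2.2 a (h ha)⟩

theorem FQ_one (F : Set (Aq I)) : 1 ∈ FQ F :=
  ⟨⟨fun _ => rfl, fun _ _ _ _ h => h⟩, fun _ => rfl, fun _ _ => rfl⟩

theorem FQ_mul {F : Set (Aq I)} {g g' : Perm (Aq I)} (h : g ∈ FQ F) (h' : g' ∈ FQ F) :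
    g * g' ∈ FQ F :=
  ⟨h.1.mul h'.1 (GQ_nq (FQ_sub h')), fun a => by rw [Perm.mul_apply, h.2.1, h'.2.1],
    fun a ha => by rw [Perm.mul_apply, h'.2.2 a ha, h.2.2 a ha]⟩

theorem FQ_inv {F : Set (Aq I)} {g : Perm (Aq I)} (h : g ∈ FQ F) : g⁻¹ ∈ FQ F :=
  ⟨(GQ_inv (FQ_sub h)).1, fun a => by rw [← h.2.1]; simp,
    fun a ha => by rw [Perm.inv_eq_iff_eq, h.2.2 a ha]⟩

theorem FQ_conj {F : Set (Aq I)} {g k : Perm (Aq I)} (hg : g ∈ GQ I) (hk : k ∈ FQ (g '' F)) :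
    g⁻¹ * k * g ∈ FQ F := by
  refine ⟨((GQ_inv hg).1.mul hk.1 (GQ_nq (FQ_sub hk))).mul hg.1 (GQ_nq hg), ?_, fun a ha => ?_⟩
  · obtain ⟨-, τ, -, h3⟩ := hg
    refine fun a => τ.injective ?_
    simp only [Perm.mul_apply]
    rw [← h3, ← h3, ← hk.2.1 (g a)]
    simp
  · simp only [Perm.mul_apply]
    rw [hk.2.2 _ ⟨a, ha, rfl⟩]
    simp

theorem col_eq {g : Perm (Aq I)} (h : g ∈ FQ {a : Aq I | a.1 = []}) :
    ∀ (w : Wq.{u}) (i : I), (g (w, i)).2 = i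
  | [], i => congrArg Prod.snd (h.2.2 ([], i) rfl)
  | c :: w, i => (congrArg Prod.snd (h.1.1 (c :: w, i))).symm.trans (col_eq h w i)

theorem GQ_nil {g : Perm (Aq I)} (h : g ∈ GQ I) (a : Aq I) : (g a).1 = [] ↔ a.1 = [] := by
  obtain ⟨-, τ, h2, h3⟩ := h
  rw [← nq_nil, ← nq_nil, h3, ← τ.injective.eq_iff (a := nq a), h2.1]

noncomputable def cE (π : I → Wq.{u} → Perm (Ordinal.{u} × ℚ)) : Perm (Aq I) :=
  Equiv.prodCongrLeft fun i => trE (π i)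

theorem cE_tr (π : I → Wq.{u} → Perm (Ordinal.{u} × ℚ))
    (h : ∀ i w c c', c.1 = c'.1 → c.2 < c'.2 → (π i w c).2 < (π i w c').2) : Tr (cE π) := by
  refine ⟨fun a => Prod.ext (tr_tail _ _) rfl, ?_⟩
  rintro ⟨w, i⟩ ⟨v, j⟩ h1 h2 h3
  obtain ⟨e1, rfl⟩ := Prod.mk.inj h1
  cases w <;> cases v
  · exact (lt_irrefl _ h3).elim
  · cases h2
  · cases h2
  · obtain rfl : _ = _ := e1
    exact h _ _ _ _ (List.cons.inj h2).1 h3

theorem tr_nq (π : Wq.{u} → Perm (Ordinal.{u} × ℚ)) (π' : Nd.{u} → Perm Ordinal.{u})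
    (h : ∀ w c, (π w c).1 = π' (w.map Prod.fst) c.1) :
    ∀ w, (tr π w).map Prod.fst = tr π' (w.map Prod.fst)
  | [] => rfl
  | c :: w => by rw [tr, List.map_cons, List.map_cons, tr, h, tr_nq π π' h w]

/-- An order automorphism of one fibre, with the cones above it. -/
theorem sw (l : Ordinal.{u}) (w : Wq.{u}) (i : I) (φ : ℚ ≃o ℚ) : ∃ g ∈ FQ (∅ : Set (Aq I)),
    (∀ c : Aq I, (∀ q, (l, q) :: w <:+ c.1 → c.2 = i → φ q = q) → g c = c) ∧
      ∀ q, g ((l, q) :: w, i) = ((l, φ q) :: w, i) := by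
  classical
  let π : I → Wq.{u} → Perm (Ordinal.{u} × ℚ) := fun j v =>
    Equiv.prodCongrRight fun m => if j = i ∧ v = w ∧ m = l then φ.toEquiv else Equiv.refl _
  have hπ : ∀ j v c, π j v c =
      (c.1, (if j = i ∧ v = w ∧ c.1 = l then φ.toEquiv else Equiv.refl _) c.2) := fun _ _ _ => rfl
  have hf : ∀ c : Aq I, (∀ q, (l, q) :: w <:+ c.1 → c.2 = i → φ q = q) → cE π c = c :=
    fun c hc => Prod.ext (tr_fix _ _ fun d v hd => by
      rw [hπ]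
      split_ifs with h1
      · obtain ⟨h1, rfl, rfl⟩ := h1
        exact Prod.ext rfl (hc d.2 hd h1)
      · rfl) rfl
  refine ⟨cE π, ⟨cE_tr π fun j v c c' h1 h2 => ?_, fun a => ?_, fun _ h => h.elim⟩, hf,
    fun q => Prod.ext ?_ rfl⟩
  · rw [hπ, hπ, h1]
    split_ifs
    · exact φ.strictMono h2
    · exact h2
  · exact (tr_nq _ (fun _ => 1) (fun _ _ => rfl) _).trans (tr_fix _ _ fun _ _ _ => rfl)
  · have h1 : tr (π i) w = w := congrArg Prod.fst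
      (hf (w, i) fun q h _ => absurd h.length_le (by simp))
    change π i w (l, q) :: tr (π i) w = _
    rw [h1, hπ, if_pos ⟨rfl, rfl, rfl⟩]
    rfl

theorem move (a b : Aq I) (ha : a.1 ≠ []) (hab : ¬ (a.2 = b.2 ∧ a.1 <:+ b.1)) :
    ∃ g ∈ FQ {c : Aq I | c.2 ≠ a.2 ∨ c.1 = [] ∨ c = b}, g a ≠ a := by
  obtain ⟨w, i⟩ := a
  cases w with
  | nil => exact (ha rfl).elim
  | cons c w =>
    obtain ⟨l, x⟩ := c
    have hA : {q | (l, q) :: w <:+ b.1 ∧ b.2 = i}.Finite := Set.Subsingleton.finite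
      fun q hq q' hq' => congrArg Prod.snd (List.cons.inj
        ((List.suffix_of_suffix_length_le hq.1 hq'.1 le_rfl).eq_of_length rfl)).1
    obtain ⟨z, h1, h2⟩ := near hA (x := x) (x' := x + 1) (fun h => hab ⟨h.2.symm, h.1⟩) (by simp)
    obtain ⟨φ, h3, h4⟩ := homog hA h1
    obtain ⟨g, hg, h5, h6⟩ := sw l w i φ
    refine ⟨g, ⟨hg.1, hg.2.1, fun c hc => h5 c fun q k1 k2 => ?_⟩, fun h => ?_⟩
    · rcases hc with hc | hc | rfl
      · exact (hc k2).elim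
      · rw [hc] at k1
        simp at k1
      · exact h3 q ⟨k1, k2⟩
    · rw [h6, h4] at h
      have e : z = x := congrArg Prod.snd (List.cons.inj (congrArg Prod.fst h)).1
      rcases h2 x rfl with k | k <;> exact lt_irrefl _ (e ▸ k.1)

theorem small_over {S : Set Nd.{u}} (hS : Small.{u} S) : Small.{u} {a : Aq I | nq a ∈ S} :=
  small_of_injective (β := S × List ℚ × I)
    (f := fun a => (⟨nq a.1, a.2⟩, a.1.1.map Prod.snd, a.1.2)) fun a b h => Subtype.ext (by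
      have h1 : nq a.1 = nq b.1 := congrArg (fun p : S × List ℚ × I => p.1.1) h
      have h2 : a.1.1.map Prod.snd = b.1.1.map Prod.snd :=
        congrArg (fun p : S × List ℚ × I => p.2.1) h
      refine Prod.ext ?_ (congrArg (fun p : S × List ℚ × I => p.2.2) h)
      rw [← List.zip_unzip a.1.1, ← List.zip_unzip b.1.1, List.unzip_fst, List.unzip_snd,
        List.unzip_fst, List.unzip_snd, h2]
      exact congrArg (List.zip · _) h1)

/-- The atoms of `F` that are not roots. -/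
def nr (F : Set (Aq I)) : Set (Aq I) := {a ∈ F | a.1 ≠ []}

theorem nr_image {g : Perm (Aq I)} (hg : g ∈ GQ I) {F : Set (Aq I)} (hF : (nr F).Finite) :
    (nr (g '' F)).Finite := (Set.Finite.image g hF).subset (by
  rintro _ ⟨⟨a, ha, rfl⟩, h⟩
  exact ⟨a, ⟨ha, fun e => h ((GQ_nil hg a).2 e)⟩, rfl⟩)

/-- The frame of the model. -/
def fq (I : Type u) : Frame (Aq I) where
  H := FQ '' {F | (nr F).Finite}
  J := {K | ∃ S, Good S ∧ ∀ a ∈ K, nq a ∈ S}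
  G := GQ I
  H_ne := ⟨_, ∅, Set.finite_empty.subset fun _ h => h.1, rfl⟩
  H_dir := by
    rintro _ ⟨F, hF, rfl⟩ _ ⟨F', hF', rfl⟩
    exact ⟨_, ⟨F ∪ F', (Set.Finite.union hF hF').subset fun _ h =>
      h.1.imp (fun h' => ⟨h', h.2⟩) fun h' => ⟨h', h.2⟩, rfl⟩, FQ_mono Set.subset_union_left,
      FQ_mono Set.subset_union_right⟩
  H_sub := by
    rintro _ ⟨F, -, rfl⟩ g hg
    exact FQ_sub hg
  G_inv _ := GQ_inv
  G_conj := by
    rintro g hg _ ⟨F, hF, rfl⟩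
    exact ⟨_, ⟨_, nr_image hg hF, rfl⟩, fun k hk => FQ_conj hg hk⟩
  G_J := by
    rintro g ⟨-, τ, h2, h3⟩ K ⟨S, hS, hK⟩
    refine ⟨_, hS.image h2, ?_⟩
    rintro _ ⟨a, ha, rfl⟩
    exact ⟨_, hK a ha, (h3 a).symm⟩
  J_empty := ⟨_, good_empty, fun _ h => h.elim⟩
  J_mono := fun _ ⟨S, hS, hK⟩ _ h => ⟨S, hS, fun a ha => hK a (h ha)⟩
  J_union := fun _ ⟨S, hS, hK⟩ _ ⟨T, hT, hK'⟩ =>
    ⟨_, hS.union hT, fun a ha => ha.imp (hK a) (hK' a)⟩
  J_small := fun _ ⟨S, hS, hK⟩ => by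
    have := small_over (I := I) hS.small
    exact small_subset (s := {a : Aq I | nq a ∈ S}) hK
  J_sym := fun _ ⟨S, hS, hK⟩ => ⟨{a | nq a ∈ S}, ⟨S, hS, fun _ h => h⟩, hK, _,
    ⟨∅, Set.finite_empty.subset fun _ h => h.1, rfl⟩, fun g hg a => by
      change nq (g a) ∈ S ↔ nq a ∈ S
      rw [hg.2.1]⟩
  amalg := by
    rintro K ⟨S, hS, hK⟩ ι L hL
    choose R hR hLR using hL
    have hS' := hS.union good_root
    obtain ⟨π, hfix, hG⟩ := amalg_tree hS' (Or.inr rfl) ι R hR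
    let ρ : ι → I → Wq.{u} → Perm (Ordinal.{u} × ℚ) := fun x _ w =>
      Equiv.prodCongr (π x (w.map Prod.fst)) (Equiv.refl _)
    have hnd : ∀ x a, nq (cE (ρ x) a) = trE (π x) (nq a) := fun x a =>
      tr_nq _ _ (fun _ _ => rfl) _
    refine ⟨fun x => cE (ρ x), fun x => ⟨cE_tr _ fun _ _ _ _ _ h => h, _, trE_TA _, hnd x⟩,
      fun x a ha => Prod.ext (tr_fix _ _ fun c w hc => Prod.ext ?_ rfl) rfl, _, hG, ?_⟩
    · exact hfix x _ _ (hS'.suffix (hc.map Prod.fst) (Or.inl (hK a ha)))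
    · intro a ha
      obtain ⟨x, b, hb, rfl⟩ := Set.mem_iUnion.1 ha
      exact Or.inr (Set.mem_iUnion.2 ⟨x, _, hLR x b hb, (hnd x b).symm⟩)

end Pool.Agent.P.MP_4a6a31_lc.OP
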