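import Pool.Agent.P.MP_4a6a31_lc.OP.For

/-! Weak reflection fails in the ordered forest model. -/

namespace Pool.Agent.P.MP_4a6a31_lc.OP

universe u

open Equiv VV

variable {I : Type u}

theorem fq_mem {F : Set (Aq I)} (hF : (nr F).Finite) : FQ F ∈ (fq I).H := ⟨F, hF, rfl⟩

theorem nr_empty : (nr (∅ : Set (Aq I))).Finite := Set.finite_empty.subset fun _ h => h.1

theorem sup (x : (fq I).M) : ∃ F : Set (Aq I), (nr F).Finite ∧ ∀ g ∈ FQ F, g • x.1 = x.1 := by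
  obtain ⟨_, ⟨F, hF, rfl⟩, h⟩ := x.2.sym
  exact ⟨F, hF, h⟩

theorem ind_fq {F : Set (Aq I)} {g : Perm (Aq I)} (hg : g ∈ FQ F) :
    ∃ e, (fq I).Ind g e := (Frame.pres_of_G (F := fq I) (FQ_sub hg)).ind

/-- The urelement of the model given by an atom. -/
def aM (a : Aq I) : (fq I).M :=
  ⟨atom a, .intro _ ⟨_, fq_mem ((Set.finite_singleton a).subset fun _ h => h.1),
      fun g hg => by rw [smul_atom, hg.2.2 a rfl]⟩
    fun y hy => (not_mem_atom y a hy).elim,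
    _, good_suffixes (nq a), fun b hb => by rw [ker_atom hb]; exact List.suffix_refl _⟩

theorem aM_inj {a b : Aq I} (h : aM a = aM b) : a = b := atom_inj (congrArg Subtype.val h)

theorem U_aM (a : Aq I) : (fq I).U (aM a) := ⟨a, rfl⟩

theorem U_el {x : (fq I).M} (h : (fq I).U x) : ∃ a, x = aM a :=
  h.imp fun _ h => Subtype.ext h

theorem ind_aM {g : Perm (Aq I)} {e : Perm (fq I).M} (he : (fq I).Ind g e) (a : Aq I) :
    e (aM a) = aM (g a) := Subtype.ext (he _)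

theorem atomsQ {S : Set Nd.{u}} (hS : Good S) :
    ∃ y : (fq I).M, ∀ z, (fq I).E z y ↔ ∃ a, nq a ∈ S ∧ aM a = z := by
  have := small_over (I := I) hS.small
  refine (Frame.mkM (F := fq I) (aM '' {a | nq a ∈ S}) (small_image _ _)
    (K := {a | nq a ∈ S}) ⟨S, hS, fun _ h => h⟩ ?_ (fq_mem nr_empty) ?_).imp fun y hy => hy.2
  · rintro _ ⟨a, ha, rfl⟩ b hb
    rwa [ker_atom hb]
  · intro g hg e he y
    constructor
    · rintro ⟨a, ha, h⟩
      obtain ⟨a, rfl⟩ := g.surjective a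
      exact ⟨a, (hg.2.1 a ▸ ha : nq a ∈ S), e.injective ((ind_aM he a).trans h)⟩
    · rintro ⟨a, ha, rfl⟩
      exact ⟨g a, ((hg.2.1 a).symm ▸ ha : nq (g a) ∈ S), (ind_aM he a).symm⟩

/-- The parent map over a tree. -/
theorem stepQ {S : Set Nd.{u}} (hS : Good S) : ∃ f : (fq I).M,
    (∀ a, nq a ∈ S → Rl (fq I).E f (aM a) (aM ((0, 0) :: a.1, a.2))) ∧
      ∀ a a' b, Rl (fq I).E f a b → Rl (fq I).E f a' b → a = a' := by
  classical
  have hT := hS.grow {0} inferInstance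
  obtain ⟨y, hy⟩ := atomsQ (I := I) hT
  let p : (fq I).M → (fq I).M := fun z =>
    if h : (fq I).U z then aM (pq (U_el h).choose) else z
  have hp : ∀ a, p (aM a) = aM (pq a) := fun a => by
    simp only [p, dif_pos (U_aM a)]
    rw [← aM_inj (U_el (U_aM a)).choose_spec]
  obtain ⟨f, hf, ha⟩ := Frame.mkFun y p (K := {a | nq a ∈ S ∪ Set.image2 List.cons {0} S})
    ⟨_, hT, fun _ h => h⟩ (fun z hz c hc => by
      obtain ⟨a, ha, rfl⟩ := (hy z).1 hz
      rw [hp] at hc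
      rw [ker_atom hc]
      exact hT.suffix ((List.tail_suffix _).map _) ha) (fq_mem nr_empty)
    fun g hg e he z hz => by
      obtain ⟨a, -, rfl⟩ := (hy z).1 hz
      rw [ind_aM he, hp, hp, ind_aM he, hg.1.1]
  refine ⟨f, fun a h => (Frame.rl_app hf).2 ⟨fun e => ?_, (ha _ _).2
    ⟨(hy _).2 ⟨_, Or.inr ⟨0, rfl, _, h, rfl⟩, rfl⟩, (hp ((0, 0) :: a.1, a.2)).symm⟩⟩,
    fun a a' b h h' => ?_⟩
  · exact List.cons_ne_self _ _ (congrArg Prod.fst (aM_inj e)).symm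
  · rw [((ha _ _).1 ((Frame.rl_app hf).1 h).2).2, ((ha _ _).1 ((Frame.rl_app hf).1 h').2).2]

theorem phiQ (p : Fin 1 → (fq I).M) : Sat (fq I).E (fq I).U (fun _ => True) phi p := by
  refine (sat_phi (fun _ _ _ _ => trivial) p).2 fun x _ => ?_
  obtain ⟨S, hS, hK⟩ := x.2.2
  obtain ⟨f, h1, h2⟩ := stepQ (I := I) hS
  refine ⟨f, trivial, fun a ha ⟨q, h3, s, h4, h5⟩ => ?_, h2⟩
  obtain ⟨a, rfl⟩ := U_el ha
  exact ⟨_, U_aM _, h1 a (hK a (Ker.mem h3 (Ker.mem h4 (Ker.mem h5 Ker.atom))))⟩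

theorem not_rpmQ [Uncountable I] : ¬ RPm (fq I).E (fq I).U := by
  intro h
  obtain ⟨x0, h0, -⟩ := stepQ (I := I) good_root
  obtain ⟨t, -, htr, hx0, hsat⟩ := h 1 phi (fun _ => x0) (phiQ _)
  choose nx hnt hn1 hn2 using (sat_phi htr _).1 hsat
  let sq : ℕ → {x // (fq I).E x t} := fun n =>
    Nat.rec ⟨x0, hx0 0⟩ (fun _ x => ⟨nx x.1 x.2, hnt x.1 x.2⟩) n
  choose F hF hfix using fun n => sup (sq n).1
  obtain ⟨i, hi⟩ : ∃ i, ∀ n, ∀ a ∈ F n, a.2 = i → a.1 = [] := by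
    have h1 : (⋃ n, Prod.snd '' nr (F n)).Countable :=
      Set.countable_iUnion fun n => (Set.Finite.image _ (hF n)).countable
    by_contra hn
    refine Set.not_countable_univ (h1.mono fun i _ => ?_)
    by_contra h
    exact hn ⟨i, fun n a ha e => not_not.1 fun h' => h (Set.mem_iUnion.2 ⟨n, a, ⟨ha, h'⟩, e⟩)⟩
  obtain ⟨S, hS, hK⟩ := t.2.2
  have key : ∀ s n (a : Aq I), nq a = s → a.2 = i → a.1 ≠ [] →
      ¬ In3 (fq I).E (sq n).1 (aM a) := fun s => by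
    induction s using hS.wf.transGen.induction with | _ s ih => ?_
    rintro n a rfl h1 h2 h3
    obtain ⟨b, hb, hr⟩ := hn1 _ (sq n).2 _ (U_aM a) h3
    obtain ⟨b, rfl⟩ := U_el hb
    have h4 : a.2 = b.2 ∧ a.1 <:+ b.1 := by
      by_contra hn
      obtain ⟨g, hg, hga⟩ := move a b h2 hn
      obtain ⟨e, he⟩ := ind_fq hg
      have hf : e (sq (n + 1)).1 = (sq (n + 1)).1 := he.fix (hfix (n + 1) g
        (FQ_mono (fun c hc => by
        by_cases hc' : c.2 = a.2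
        · exact Or.inr (Or.inl (hi _ c hc (hc'.trans h1)))
        · exact Or.inl hc') hg))
      have hr' := rl_aut e he.hE (f := (sq (n + 1)).1) hr
      rw [hf, ind_aM he, ind_aM he, hg.2.2 b (Or.inr (Or.inr rfl))] at hr'
      exact hga (aM_inj (hn2 _ (sq n).2 _ _ _ hr' hr))
    have h5 : nq b ∈ S := hK b (Ker.mem (hr.in_right.dom htr (hnt _ (sq n).2)) Ker.atom)
    refine ih (nq b) (hS.transGen _ h5 (h4.2.map _) fun e => hr.1 ?_) (n + 1) b rfl
      (h4.1 ▸ h1) (fun e => h2 (List.suffix_nil.1 (e ▸ h4.2))) hr.in_right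
    have h6 := congrArg List.length e
    simp only [nq, List.length_map] at h6
    rw [Prod.ext (h4.2.eq_of_length h6) h4.1]
  exact key _ 0 ([(0, 0)], i) rfl rfl (List.cons_ne_nil _ _) (h0 ([], i) rfl).in_right

end Pool.Agent.P.MP_4a6a31_lc.OP
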