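import Pool.Agent.P.MP_4a6a31_lc.OP.Ord

open Pool.Agent.P.MP_4a6a31_lc

/-- The former hand-in `OrderingPrinciple`, replaced by `PrimeIdeal` (same model). -/
theorem Pool.Agent.P.MP_4a6a31_lc.OP.orderingPrinciple :
    ∃ (M : Type 1) (E : M → M → Prop) (U : M → Prop), WellFounded E ∧ ZFUR E U ∧ Coll E U ∧
      (∀ x, ∃ r, (∀ a, E a x → ¬ App E r a a) ∧
        (∀ a b c, E a x → E b x → E c x → App E r a b → App E r b c → App E r a c) ∧
        ∀ a b, E a x → E b x → App E r a b ∨ a = b ∨ App E r b a) ∧ ¬ RPm E U :=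
  ⟨_, (OP.fq ℝ).E, (OP.fq ℝ).U, Frame.wfE, Frame.zfur, Frame.coll, OP.ordQ, OP.not_rpmQ⟩
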