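import Pool.Agent.P.MP_4a6a31_lc.OP.NoR

/-! Least supports and an invariant linear order of the ordered forest model. -/

namespace Pool.Agent.P.MP_4a6a31_lc.OP

universe u

open Equiv VV

/-- An invariant relation is a set of pairs of the model. -/
theorem mkApp {A : Type (u + 1)} {F : Frame A} (x : F.M) (R : F.M → F.M → Prop)
    {h : Set (Perm A)} (hh : h ∈ F.H)
    (hinv : ∀ g ∈ h, ∀ e, F.Ind g e → ∀ a b, R (e a) (e b) ↔ R a b) :
    ∃ s, ∀ a b, F.E a x → F.E b x → (App F.E s a b ↔ R a b) := by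
  choose q hq hqk using Frame.prM (F := F)
  obtain ⟨h', hh', h1⟩ := x.2.sym
  obtain ⟨k, hk, h3, h4⟩ := F.H_dir h hh h' hh'
  have := Frame.smallE x
  have hS : Small.{u} {p : F.M × F.M | F.E p.1 x ∧ F.E p.2 x ∧ R p.1 p.2} :=
    small_of_injective (β := {y | F.E y x} × {y | F.E y x})
      (f := fun p => (⟨p.1.1, p.2.1⟩, ⟨p.1.2, p.2.2.1⟩)) fun p p' h => Subtype.ext
        (Prod.ext (congrArg (fun q : {y | F.E y x} × {y | F.E y x} => q.1.1) h)
          (congrArg (fun q : {y | F.E y x} × {y | F.E y x} => q.2.1) h))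
  obtain ⟨s, -, hm⟩ := Frame.mkM ((fun p : F.M × F.M => q p.1 p.2) ''
      {p | F.E p.1 x ∧ F.E p.2 x ∧ R p.1 p.2}) (small_image _ _) x.2.2 (by
      rintro _ ⟨p, hp, rfl⟩ c hc
      exact (hqk _ _ c hc).elim (Ker.mem hp.1) (Ker.mem hp.2.1)) hk fun g hg e he y => by
      have hqe : ∀ a b, q (e a) (e b) = e (q a b) := fun a b =>
        Frame.pr_unique (hq _ _) ((pr_aut e he.hE _ _ _).2 (hq _ _))
      have hd : ∀ a, F.E (e a) x ↔ F.E a x := fun a => by
        rw [← he.hE a x, he.fix (h1 g (h4 hg))]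
      constructor
      · rintro ⟨⟨a, b⟩, hp, hy⟩
        obtain ⟨a, rfl⟩ := e.surjective a
        obtain ⟨b, rfl⟩ := e.surjective b
        exact ⟨(a, b), ⟨(hd a).1 hp.1, (hd b).1 hp.2.1, (hinv g (h3 hg) e he a b).1 hp.2.2⟩,
          e.injective ((hqe a b).symm.trans hy)⟩
      · rintro ⟨p, hp, rfl⟩
        exact ⟨(e p.1, e p.2), ⟨(hd _).2 hp.1, (hd _).2 hp.2.1,
          (hinv g (h3 hg) e he _ _).2 hp.2.2⟩, hqe _ _⟩
  refine ⟨s, fun a b ha hb => ⟨?_, fun hR => ⟨_, (hm _).2 ⟨(a, b), ⟨ha, hb, hR⟩, rfl⟩, hq _ _⟩⟩⟩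
  rintro ⟨r, hr, hp⟩
  obtain ⟨⟨a', b'⟩, hR, rfl⟩ := (hm r).1 hr
  obtain ⟨rfl, rfl⟩ := Frame.prE_inj hp (hq a' b')
  exact hR.2.2

theorem rigid {α : Type*} {r : α → α → Prop} (hi : ∀ a, ¬ r a a)
    (ht : ∀ a b c, r a b → r b c → r a c) {s : Set α} (hs : s.Finite) {h : α → α}
    (hm : ∀ a ∈ s, h a ∈ s) (hr : ∀ a b, r a b → r (h a) (h b)) (a : α) (ha : a ∈ s) :
    ¬ r (h a) a := by
  have : Finite s := hs
  have : Std.Irrefl (fun a b : s => r a b) := ⟨fun a => hi a⟩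
  have : IsTrans s (fun a b : s => r a b) := ⟨fun a b c => ht a b c⟩
  have wf := Finite.wellFounded_of_trans_of_irrefl (fun a b : s => r a b)
  have key : ∀ a : s, ¬ r (h a) a := fun a => by
    induction a using wf.induction with | _ a ih => ?_
    exact fun h1 => ih ⟨h a, hm a a.2⟩ h1 (hr _ _ h1)
  exact key ⟨a, ha⟩

variable {I : Type u}

/-- The roots. -/
abbrev Rt (I : Type u) : Set (Aq I) := {a | a.1 = []}

/-- The order of the atoms over one node. -/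
inductive Lo : Aq I → Aq I → Prop
  | sib {a b : Aq I} : pq a = pq b → nq a = nq b → hd a < hd b → Lo a b
  | up {a b : Aq I} : nq a = nq b → Lo (pq a) (pq b) → Lo a b

theorem Lo.ne {a b : Aq I} (h : Lo a b) : a ≠ b := by
  induction h with
  | sib _ _ h => exact fun e => lt_irrefl _ (e ▸ h)
  | up _ _ ih => exact fun e => ih (e ▸ rfl)

theorem Lo.trans {a b : Aq I} (h : Lo a b) : ∀ {c}, Lo b c → Lo a c := by
  induction h with
  | sib h1 h2 h3 =>
    intro c h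
    cases h with
    | sib k1 k2 k3 => exact .sib (h1.trans k1) (h2.trans k2) (h3.trans k3)
    | up k1 k2 => exact .up (h2.trans k1) (h1 ▸ k2)
  | up h1 h2 ih =>
    intro c h
    cases h with
    | sib k1 k2 _ => exact .up (h1.trans k2) (k1 ▸ h2)
    | up k1 k2 => exact .up (h1.trans k1) (ih k2)

theorem Lo.map {g : Perm (Aq I)} (hg : g ∈ GQ I) {a b : Aq I} (h : Lo a b) : Lo (g a) (g b) := by
  induction h with
  | sib h1 h2 h3 =>
    exact .sib (by rw [← hg.1.1, ← hg.1.1, h1]) (GQ_nq hg _ _ h2) (hg.1.2 _ _ h1 h2 h3)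
  | up h1 _ ih => exact .up (GQ_nq hg _ _ h1) (by rwa [← hg.1.1, ← hg.1.1])

theorem Lo.tri (i : I) : ∀ w v : Wq.{u}, w.map Prod.fst = v.map Prod.fst →
    Lo (w, i) (v, i) ∨ (w, i) = (v, i) ∨ Lo (v, i) (w, i)
  | [], [], _ => Or.inr (Or.inl rfl)
  | [], _ :: _, h => by cases h
  | _ :: _, [], h => by cases h
  | c :: w, d :: v, h => by
    rcases Lo.tri i w v (List.cons.inj h).2 with k | k | k
    · exact Or.inl (.up h k)
    · rcases lt_trichotomy (hd (c :: w, i)) (hd (d :: v, i)) with e | e | e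
      · exact Or.inl (.sib k h e)
      · exact Or.inr (Or.inl (aq_ext k h e))
      · exact Or.inr (Or.inr (.sib k.symm h.symm e))
    · exact Or.inr (Or.inr (.up h.symm k))

theorem Lo.tri' {g g' : Perm (Aq I)} (hg : g ∈ FQ (Rt I)) (hg' : g' ∈ FQ (Rt I)) (a : Aq I) :
    Lo (g a) (g' a) ∨ g a = g' a ∨ Lo (g' a) (g a) := by
  have e1 : g a = ((g a).1, a.2) := Prod.ext rfl (col_eq hg _ _)
  have e2 : g' a = ((g' a).1, a.2) := Prod.ext rfl (col_eq hg' _ _)
  rw [e1, e2]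
  exact Lo.tri _ _ _ ((hg.2.1 a).trans (hg'.2.1 a).symm)

/-- Closed supports. -/
structure Su (y : VV (Aq I)) (F : Set (Aq I)) : Prop where
  fin : (nr F).Finite
  root : Rt I ⊆ F
  down : ∀ a ∈ F, pq a ∈ F
  fix : ∀ g ∈ FQ F, g • y = y

theorem suffix_mem {F : Set (Aq I)} (h : ∀ a ∈ F, pq a ∈ F) {i : I} {v : Wq.{u}} :
    ∀ w, v <:+ w → (w, i) ∈ F → (v, i) ∈ F
  | [], h1, h2 => (List.suffix_nil.1 h1) ▸ h2
  | c :: w, h1, h2 => by
    rcases List.suffix_cons_iff.1 h1 with h1 | h1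
    · exact h1 ▸ h2
    · exact suffix_mem h w h1 (h _ h2)

theorem su_ex (y : (fq I).M) : ∃ F, Su y.1 F := by
  obtain ⟨F, hF, h⟩ := sup y
  refine ⟨Rt I ∪ {a | ∃ b ∈ nr F, a.1 <:+ b.1 ∧ a.2 = b.2}, ?_, Set.subset_union_left, ?_,
    fun g hg => h g (FQ_mono (fun a ha => ?_) hg)⟩
  · refine (hF.biUnion (t := fun b => (fun s => (s, b.2)) '' {s | s ∈ b.1.tails})
      fun b _ => (List.finite_toSet _).image _).subset ?_
    rintro a ⟨h1 | ⟨b, hb, h1, h2⟩, h3⟩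
    · exact (h3 h1).elim
    · exact Set.mem_biUnion hb ⟨a.1, (List.mem_tails _ _).2 h1, Prod.ext rfl h2.symm⟩
  · rintro a (ha | ⟨b, hb, h1, h2⟩)
    · exact Or.inl (congrArg List.tail ha)
    · exact Or.inr ⟨b, hb, (List.tail_suffix _).trans h1, h2⟩
  · by_cases h0 : a.1 = []
    · exact Or.inl h0
    · exact Or.inr ⟨a, ⟨ha, h0⟩, List.suffix_refl _, rfl⟩

theorem Su.image {y : VV (Aq I)} {F : Set (Aq I)} (h : Su y F) {g : Perm (Aq I)}
    (hg : g ∈ FQ (Rt I)) (hy : g • y = y) : Su y (g '' F) := by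
  refine ⟨nr_image (FQ_sub hg) h.fin, fun a ha => ⟨a, h.root ha, hg.2.2 a ha⟩, ?_, fun k hk => ?_⟩
  · rintro _ ⟨a, ha, rfl⟩
    exact ⟨_, h.down a ha, hg.1.1 a⟩
  · have := h.fix _ (FQ_conj (FQ_sub hg) hk)
    rwa [mul_smul, mul_smul, inv_smul_eq_iff, hy] at this

/-- A leaf of a support that is outside another support can be dropped. -/
theorem Su.drop {y : VV (Aq I)} {F F' : Set (Aq I)} (h : Su y F) (h' : Su y F') {e : Aq I}
    (he : e ∈ F) (he' : e ∉ F') (hl : ∀ a ∈ F, a ≠ e → pq a ≠ e) : Su y (F \ {e}) := by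
  have hd' : ∀ a ∈ F \ {e}, pq a ∈ F \ {e} := fun a ha => ⟨h.down a ha.1, hl a ha.1 ha.2⟩
  refine ⟨h.fin.subset fun a ha => ⟨ha.1.1, ha.2⟩,
    fun a ha => ⟨h.root ha, fun k => he' (k ▸ h'.root ha)⟩, hd', fun g hg => ?_⟩
  by_cases hge : g e = e
  · exact h.fix g ⟨hg.1, hg.2.1, fun a ha => by
      by_cases k : a = e
      · rw [k, hge]
      · exact hg.2.2 a ⟨ha, k⟩⟩
  obtain ⟨w, i⟩ := e
  cases w with
  | nil => exact (he' (h'.root rfl)).elim
  | cons c w => ?_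
  obtain ⟨l, x⟩ := c
  have hp : (w, i) ∈ F \ {((l, x) :: w, i)} :=
    ⟨h.down _ he, fun k => List.cons_ne_self _ _ (congrArg Prod.fst k).symm⟩
  have e0 : g ((l, x) :: w, i) = ((l, hd (g ((l, x) :: w, i))) :: w, i) :=
    aq_ext ((hg.1.1 _).symm.trans (hg.2.2 _ hp)) (hg.2.1 _) rfl
  generalize hx' : hd (g ((l, x) :: w, i)) = x' at e0
  let A : Set (Aq I) → Set ℚ := fun T => {q | ((l, q) :: w, i) ∈ T}
  have hA : ∀ T, (nr T).Finite → (A T).Finite := fun T hT =>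
    Set.Finite.of_injOn (f := fun q => (((l, q) :: w, i) : Aq I)) (t := nr T)
      (fun q hq => ⟨hq, List.cons_ne_nil _ _⟩)
      (fun q _ q' _ k => congrArg Prod.snd (List.cons.inj (congrArg Prod.fst k)).1) hT
  have mv : ∀ T, Su y T → ∀ z z', ∀ B : Set ℚ, B.Finite → A T ⊆ B →
      A (F \ {((l, x) :: w, i)}) ⊆ B → SG B z z' → ∃ k ∈ FQ (F \ {((l, x) :: w, i)}),
        k • y = y ∧ k ((l, z) :: w, i) = ((l, z') :: w, i) := by
    intro T hT z z' B hB h1 h2 h3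
    obtain ⟨φ, k1, k2⟩ := homog hB h3
    obtain ⟨k, hk, k3, k4⟩ := sw l w i φ
    exact ⟨k, ⟨hk.1, hk.2.1, fun c hc => k3 c fun q e1 e2 =>
      k1 q (h2 (suffix_mem hd' c.1 e1 (e2 ▸ hc)))⟩, hT.fix k ⟨hk.1, hk.2.1, fun c hc =>
        k3 c fun q e1 e2 => k1 q (h1 (suffix_mem hT.down c.1 e1 (e2 ▸ hc)))⟩, by rw [k4, k2]⟩
  have f1 := hA (F \ {((l, x) :: w, i)}) (h.fin.subset fun a ha => ⟨ha.1.1, ha.2⟩)
  obtain ⟨z, z1, z2⟩ := near (f1.union (hA F' h'.fin)) (x := x) (x' := x')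
    (fun k => k.elim (fun k => k.2 rfl) he') fun k => hge (by rw [e0, ← k])
  obtain ⟨k1, a1, a2, a3⟩ := mv F' h' x z _ (f1.union (hA F' h'.fin)) Set.subset_union_right
    Set.subset_union_left z1
  obtain ⟨k2, b1, b2, b3⟩ := mv F h z x' _ (f1.union (Set.finite_singleton x)) (fun q hq => by
      by_cases k : q = x
      · exact Or.inr k
      · exact Or.inl ⟨hq, fun e => k (congrArg Prod.snd (List.cons.inj (congrArg Prod.fst e)).1)⟩)
    Set.subset_union_left fun q hq => by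
      rcases hq with hq | hq
      · have e1 := hg.2.2 _ hq
        rcases z1 q (Or.inl hq) with k | k
        · have := hg.1.2 ((l, q) :: w, i) ((l, x) :: w, i) rfl rfl k.1
          rw [e1, hx'] at this
          exact Or.inl ⟨k.2, this⟩
        · have := hg.1.2 ((l, x) :: w, i) ((l, q) :: w, i) rfl rfl k.1
          rw [e1, hx'] at this
          exact Or.inr ⟨k.2, this⟩
      · exact z2 q hq
  have c1 := FQ_mul (FQ_inv (FQ_mul b1 a1)) hg
  have c2 := h.fix _ ⟨c1.1, c1.2.1, fun a ha => by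
    by_cases k : a = ((l, x) :: w, i)
    · rw [k, Perm.mul_apply, Perm.inv_eq_iff_eq, Perm.mul_apply, a3, b3, e0]
    · exact c1.2.2 a ⟨ha, k⟩⟩
  rwa [mul_smul, inv_smul_eq_iff, mul_smul, a2, b2] at c2

theorem su_least (y : (fq I).M) : ∃ F, Su y.1 F ∧ ∀ F', Su y.1 F' → F ⊆ F' := by
  obtain ⟨F, hF, hmin⟩ := (measure fun F : Set (Aq I) => (nr F).ncard).wf.has_min
    {F | Su y.1 F} (su_ex y)
  refine ⟨F, hF, fun F' hF' => not_not.1 fun hn => ?_⟩
  obtain ⟨a, ha, ha'⟩ := Set.not_subset.1 hn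
  have hsub : F \ F' ⊆ nr F := fun b hb => ⟨hb.1, fun k => hb.2 (hF'.root k)⟩
  obtain ⟨e, he, hmax⟩ := Set.exists_max_image (F \ F') (fun b => b.1.length)
    (hF.fin.subset hsub) ⟨a, ha, ha'⟩
  refine hmin _ (Su.drop hF hF' he.1 he.2 fun b hb hne k => ?_) (Set.ncard_lt_ncard
    ⟨fun b hb => ⟨hb.1.1, hb.2⟩, fun k => (k (hsub he)).1.2 rfl⟩ hF.fin)
  have h1 := hmax b ⟨hb, fun k' => he.2 (k ▸ hF'.down b k')⟩
  obtain ⟨w, i⟩ := b
  cases w with
  | nil => exact hne k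
  | cons c w =>
    rw [← k] at h1
    exact absurd h1 (by simp [pq])

/-- A list of atoms with the same stabiliser. -/
theorem su_list (y : (fq I).M) : ∃ L : List (Aq I),
    ∀ g ∈ FQ (Rt I), g • y.1 = y.1 ↔ ∀ a ∈ L, g a = a := by
  obtain ⟨F, hF, hl⟩ := su_least y
  refine ⟨hF.fin.toFinset.toList, fun g hg => ?_⟩
  simp only [Finset.mem_toList, Set.Finite.mem_toFinset]
  refine ⟨fun hy a ha => ?_, fun h => hF.fix g ⟨hg.1, hg.2.1, fun a ha => ?_⟩⟩
  · have h1 := hl _ (hF.image (FQ_inv hg) (inv_smul_eq_iff.2 hy.symm))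
    have hm : ∀ a ∈ nr F, g a ∈ nr F := fun a ha => by
      obtain ⟨b, hb, e⟩ := h1 ha.1
      refine ⟨by rw [← e]; simpa using hb, fun k => ha.2 ((GQ_nil (FQ_sub hg) a).1 k)⟩
    rcases Lo.tri' hg (FQ_one _) a with k | k | k
    · exact (rigid (fun _ h => h.ne rfl) (fun _ _ _ h h' => h.trans h') hF.fin hm
        (fun _ _ h => h.map (FQ_sub hg)) a ha k).elim
    · exact k
    · exact (rigid (r := fun a b => Lo b a) (fun _ h => h.ne rfl) (fun _ _ _ h h' => h'.trans h)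
        hF.fin hm (fun _ _ h => h.map (FQ_sub hg)) a ha k).elim
  · by_cases k : a.1 = []
    · exact hg.2.2 a k
    · exact h a ⟨ha, k⟩

theorem lex_map {g : Perm (Aq I)} (hg : g ∈ GQ I) {l l' : List (Aq I)} (h : List.Lex Lo l l') :
    List.Lex Lo (l.map g) (l'.map g) := by
  induction h with
  | nil => exact .nil
  | rel h => exact .rel (h.map hg)
  | cons _ ih => exact .cons ih

theorem lex_tri {g g' : Perm (Aq I)} (hg : g ∈ FQ (Rt I)) (hg' : g' ∈ FQ (Rt I)) :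
    ∀ L : List (Aq I), List.Lex Lo (L.map g) (L.map g') ∨ L.map g = L.map g' ∨
      List.Lex Lo (L.map g') (L.map g)
  | [] => Or.inr (Or.inl rfl)
  | a :: L => by
    rw [List.map_cons, List.map_cons]
    rcases Lo.tri' hg hg' a with k | k | k
    · exact Or.inl (.rel k)
    · rw [k]
      exact (lex_tri hg hg' L).imp .cons (Or.imp (congrArg _) .cons)
    · exact Or.inr (Or.inr (.rel k))

/-- Every set of the model carries a linear order in the model. -/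
theorem ordQ (x : (fq I).M) : ∃ r, (∀ a, (fq I).E a x → ¬ App (fq I).E r a a) ∧
    (∀ a b c, (fq I).E a x → (fq I).E b x → (fq I).E c x → App (fq I).E r a b →
      App (fq I).E r b c → App (fq I).E r a c) ∧
    ∀ a b, (fq I).E a x → (fq I).E b x → App (fq I).E r a b ∨ a = b ∨ App (fq I).E r b a := by
  let orb : (fq I).M → Set (fq I).M := fun y => {z | ∃ g ∈ FQ (Rt I), y.1 = g • z.1}
  have ho : ∀ g ∈ FQ (Rt I), ∀ y y' : (fq I).M, y'.1 = g • y.1 → orb y' = orb y :=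
    fun g hg y y' e => Set.ext fun z =>
      ⟨fun ⟨k, hk, h⟩ => ⟨g⁻¹ * k, FQ_mul (FQ_inv hg) hk, by rw [mul_smul, ← h, e, inv_smul_smul]⟩,
        fun ⟨k, hk, h⟩ => ⟨g * k, FQ_mul hg hk, by rw [mul_smul, ← h, e]⟩⟩
  have hrep : ∀ T : Set (fq I).M, ∃ r : (fq I).M, T.Nonempty → r ∈ T := fun T => by
    by_cases h : T.Nonempty
    · exact h.imp fun _ h _ => h
    · exact ⟨x, fun h' => (h h').elim⟩
  choose rep hrep using hrep
  choose L hL using su_list (I := I)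
  choose γ hγ hγ' using fun y => hrep (orb y) ⟨y, 1, FQ_one _, (one_smul _ _).symm⟩
  let l : (fq I).M → List (Aq I) := fun y => (L (rep (orb y))).map (γ y)
  have key : ∀ (r : (fq I).M), ∀ g ∈ FQ (Rt I), ∀ g' ∈ FQ (Rt I),
      (g • r.1 = g' • r.1 ↔ (L r).map g = (L r).map g') := fun r g hg g' hg' => by
    rw [← inv_smul_eq_iff, ← mul_smul, hL r _ (FQ_mul (FQ_inv hg') hg), List.map_inj_left]
    exact forall₂_congr fun a _ => by rw [Perm.mul_apply, Perm.inv_eq_iff_eq]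
  have hl : ∀ g ∈ FQ (Rt I), ∀ y y' : (fq I).M, y'.1 = g • y.1 → l y' = (l y).map g :=
    fun g hg y y' e => by
      have h1 := hγ' y'
      simp only [l]
      rw [ho g hg y y' e] at h1 ⊢
      rw [List.map_map, ← Perm.coe_mul, ← key _ _ (hγ y') _ (FQ_mul hg (hγ y)), ← h1, mul_smul,
        ← hγ' y, e]
  have hR : (nr (Rt I)).Finite := Set.finite_empty.subset fun _ h => h.2 h.1
  obtain ⟨r, hr⟩ := mkApp x (fun a b => WellOrderingRel (orb a) (orb b) ∨
      (orb a = orb b ∧ List.Lex Lo (l a) (l b))) (fq_mem hR) fun g hg e he a b => by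
    rw [ho g hg _ _ (he a), ho g hg _ _ (he b), hl g hg _ _ (he a), hl g hg _ _ (he b)]
    refine or_congr Iff.rfl (and_congr Iff.rfl ⟨fun h => ?_, lex_map (FQ_sub hg)⟩)
    simpa [List.map_map] using lex_map (GQ_inv (FQ_sub hg)) h
  refine ⟨r, fun a ha h => ?_, fun a b c ha hb hc h h' => ?_, fun a b ha hb => ?_⟩
  · rcases (hr _ _ ha ha).1 h with h | h
    · exact irrefl _ h
    · exact List.lex_irrefl (fun _ h => h.ne rfl) _ h.2
  · refine (hr _ _ ha hc).2 ?_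
    rcases (hr _ _ ha hb).1 h with h | h <;> rcases (hr _ _ hb hc).1 h' with h' | h'
    · exact Or.inl (_root_.trans h h')
    · exact Or.inl (h'.1 ▸ h)
    · exact Or.inl (h.1 ▸ h')
    · exact Or.inr ⟨h.1.trans h'.1, List.lex_trans (fun h h' => h.trans h') h.2 h'.2⟩
  · rw [hr _ _ ha hb, hr _ _ hb ha]
    rcases trichotomous_of WellOrderingRel (orb a) (orb b) with h | h | h
    · exact Or.inl (Or.inl h)
    · have h1 := lex_tri (hγ a) (hγ b) (L (rep (orb a)))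
      have h2 : l b = (L (rep (orb a))).map (γ b) := by rw [h]
      rw [← h2] at h1
      refine h1.imp (fun k => Or.inr ⟨h, k⟩) (Or.imp (fun k => Subtype.ext ?_)
        fun k => Or.inr ⟨h.symm, k⟩)
      rw [hγ' a, hγ' b, ← h]
      exact (key _ _ (hγ a) _ (hγ b)).2 (k.trans h2)
    · exact Or.inr (Or.inr (Or.inl h))

end Pool.Agent.P.MP_4a6a31_lc.OP
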