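import Pool.Agent.P.MP_4a6a31_lc.OP.Ord

/-! The ultrafilter lemma in the ordered forest model. -/

namespace Pool.Agent.P.MP_4a6a31_lc.OP

universe u

open Equiv VV Filter

section Tensor

open scoped Classical

variable {α β : Type*} (p : α → Ultrafilter β)

/-- The iterated ultrafilter along a list of coordinates. -/
noncomputable def Tn : List α → (α → β) → Ultrafilter (α → β)
  | [], x => pure x
  | a :: L, x => (p a).bind fun q => Tn L (Function.update x a q)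

theorem tn_cons (a : α) (L : List α) (x : α → β) (C : (α → β) → Prop) :
    (∀ᶠ y in Tn p (a :: L) x, C y) ↔
      ∀ᶠ q in p a, ∀ᶠ y in Tn p L (Function.update x a q), C y := Iff.rfl

theorem tn_filter (S : α → Bool) (C : (α → β) → Prop)
    (hC : ∀ x x', (∀ a, S a → x a = x' a) → (C x ↔ C x')) : ∀ (L : List α) (x x' : α → β),
    (∀ a, S a → x a = x' a) →
      ((∀ᶠ y in Tn p L x, C y) ↔ ∀ᶠ y in Tn p (L.filter S) x', C y)
  | [], x, x', h => hC x x' h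
  | a :: L, x, x', h => by
    by_cases ha : S a
    · rw [List.filter_cons_of_pos ha, tn_cons, tn_cons]
      refine eventually_congr (.of_forall fun q => tn_filter S C hC L _ _ fun b hb => ?_)
      by_cases e : b = a
      · rw [e, Function.update_self, Function.update_self]
      · rw [Function.update_of_ne e, Function.update_of_ne e, h b hb]
    · rw [List.filter_cons_of_neg ha, tn_cons]
      refine (eventually_congr (.of_forall fun q =>
        tn_filter S C hC L _ x' fun b hb => ?_)).trans eventually_const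
      rw [Function.update_of_ne (fun e : b = a => ha (e ▸ hb)), h b hb]

theorem tn_map {g : α → α} (hg : Function.Injective g) (hp : ∀ a, p (g a) = p a)
    (C : (α → β) → Prop) : ∀ (L : List α) (x : α → β),
    (∀ᶠ y in Tn p (L.map g) x, C (y ∘ g)) ↔ ∀ᶠ y in Tn p L (x ∘ g), C y
  | [], _ => Iff.rfl
  | a :: L, x => by
    rw [List.map_cons, tn_cons, tn_cons, hp]
    exact eventually_congr (.of_forall fun q => by
      rw [tn_map hg hp C L, Function.update_comp_eq_of_injective _ hg])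

end Tensor

theorem cofinal_ex (O : Set ℚ) : ∃ U : Ultrafilter ℚ, ∀ z ∈ O, ∀ᶠ q in U, q ∈ O ∧ z ≤ q := by
  rcases O.eq_empty_or_nonempty with rfl | hO
  · exact ⟨pure 0, fun _ h => h.elim⟩
  · have := hO.to_subtype
    exact ⟨(Ultrafilter.of (atTop : Filter O)).map Subtype.val, fun z hz =>
      ((eventually_ge_atTop (⟨z, hz⟩ : O)).filter_mono (Ultrafilter.of_le _)).mono
        fun q hq => ⟨q.2, hq⟩⟩

variable {I : Type u}

noncomputable def ky (a : Aq I) : ℕ ×ₗ Cardinal.{u + 1} :=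
  toLex (a.1.length, embeddingToCardinal (nq a, a.2))

/-- An invariant linear order of all atoms in which parents come first. -/
def Lt (a b : Aq I) : Prop := ky a < ky b ∨ (ky a = ky b ∧ Lo a b)

theorem Lt.irrefl (a : Aq I) : ¬ Lt a a := fun h => h.elim (lt_irrefl _) fun h => h.2.ne rfl

theorem Lt.trans {a b c : Aq I} (h : Lt a b) (h' : Lt b c) : Lt a c := by
  rcases h with h | h <;> rcases h' with h' | h'
  · exact Or.inl (h.trans h')
  · exact Or.inl (h'.1 ▸ h)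
  · exact Or.inl (h.1 ▸ h')
  · exact Or.inr ⟨h.1.trans h'.1, h.2.trans h'.2⟩

theorem Lt.tri (a b : Aq I) : Lt a b ∨ a = b ∨ Lt b a := by
  rcases lt_trichotomy (ky a) (ky b) with h | h | h
  · exact Or.inl (Or.inl h)
  · obtain ⟨w, i⟩ := a
    obtain ⟨v, j⟩ := b
    obtain ⟨e, rfl⟩ := Prod.mk.inj (embeddingToCardinal.injective
      (congrArg (fun k => (ofLex k).2) h))
    exact (Lo.tri i w v e).imp (fun k => Or.inr ⟨h, k⟩) (Or.imp id fun k => Or.inr ⟨h.symm, k⟩)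
  · exact Or.inr (Or.inr (Or.inl h))

instance : IsStrictTotalOrder (Aq I) Lt where
  irrefl := Lt.irrefl
  trans _ _ _ := Lt.trans
  trichotomous a b h h' := ((Lt.tri a b).resolve_left h).resolve_right h'

theorem Lt.len {a b : Aq I} (h : Lt a b) : a.1.length ≤ b.1.length := by
  rcases h with h | h
  · rcases Prod.Lex.lt_iff.1 h with h | h
    · exact h.le
    · exact h.1.le
  · exact (congrArg (fun k => (ofLex k).1) h.1).le

theorem Lt.sib {a b : Aq I} (h : Lt a b) (h1 : pq a = pq b) (h2 : nq a = nq b) : hd a < hd b := by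
  rcases h with h | h
  · have e : a.1.length = b.1.length := by simpa [nq] using congrArg List.length h2
    have e' : a.2 = b.2 := (Prod.mk.inj h1).2
    rw [ky, ky, e, e', h2] at h
    exact (lt_irrefl _ h).elim
  · cases h.2 with
    | sib _ _ k => exact k
    | up _ k => exact (k.ne h1).elim

theorem Lt.map {g : Perm (Aq I)} (hg : g ∈ FQ (Rt I)) {a b : Aq I} (h : Lt a b) :
    Lt (g a) (g b) := by
  have e : ∀ a, ky (g a) = ky a := fun a => by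
    have e1 : (g a).1.length = a.1.length := by simpa [nq] using congrArg List.length (hg.2.1 a)
    rw [ky, ky, e1, hg.2.1, show (g a).2 = a.2 from col_eq hg _ _]
  rw [Lt, e, e]
  exact h.imp id fun h => ⟨h.1, h.2.map (FQ_sub hg)⟩

/-- Closed sets of atoms. -/
structure Cl (F : Set (Aq I)) : Prop where
  fin : (nr F).Finite
  root : Rt I ⊆ F
  down : ∀ a ∈ F, pq a ∈ F

variable {E0 : Set (Aq I)}

theorem step {P : Set (Aq I)} (hEP : E0 ⊆ P) (hP : Cl P) {h0 : Perm (Aq I)} (hh0 : h0 ∈ FQ E0)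
    {a : Aq I} (ha : a ∉ P) (hlt : ∀ b ∈ P, b ∉ E0 → Lt b a) {h : Perm (Aq I)} (hh : h ∈ FQ E0)
    (hle : hd (h0 a) ≤ hd (h a)) :
    ∃ h1 ∈ FQ E0, (∀ b ∈ P, h1 b = h0 b) ∧ hd (h1 a) = hd (h a) := by
  obtain ⟨⟨l, z⟩, w, i, e0⟩ : ∃ c w i, h0 a = (c :: w, i) := by
    obtain ⟨c, w, e⟩ := List.exists_cons_of_ne_nil
      (fun e => ha (hP.root ((GQ_nil (FQ_sub hh0) a).1 e)))
    exact ⟨c, w, _, Prod.ext e rfl⟩
  have hz : hd (h0 a) = z := by rw [e0]; rfl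
  have hA : {q | ((l, q) :: w, i) ∈ h0 '' P}.Finite :=
    Set.Finite.of_injOn (f := fun q => (((l, q) :: w, i) : Aq I)) (t := nr (h0 '' P))
      (fun q hq => ⟨hq, List.cons_ne_nil _ _⟩)
      (fun q _ q' _ k => congrArg Prod.snd (List.cons.inj (congrArg Prod.fst k)).1)
      (nr_image (FQ_sub hh0) hP.fin)
  obtain ⟨φ, k1, k2⟩ := homog hA (z := z) (z' := hd (h a)) (by
    rintro q ⟨b, hb, e⟩
    have hq : hd (h0 b) = q := by rw [e]; rfl
    have e1 : pq b = pq a := h0.injective (by rw [hh0.1.1, hh0.1.1, e, e0]; rfl)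
    have e2 : nq b = nq a := by rw [← hh0.2.1 b, ← hh0.2.1 a, e, e0]; rfl
    rw [← hq, ← hz]
    rcases lt_trichotomy (hd b) (hd a) with k | k | k
    · exact Or.inl ⟨hh0.1.2 _ _ e1 e2 k, (hh0.1.2 _ _ e1 e2 k).trans_le hle⟩
    · exact (ha (aq_ext e1 e2 k ▸ hb)).elim
    · have hb0 : b ∈ E0 := not_not.1 fun hn => lt_asymm k ((hlt b hb hn).sib e1 e2)
      refine Or.inr ⟨hh0.1.2 _ _ e1.symm e2.symm k, ?_⟩
      rw [hh0.2.2 b hb0, ← hh.2.2 b hb0]
      exact hh.1.2 _ _ e1.symm e2.symm k)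
  obtain ⟨k, hk, k3, k4⟩ := sw l w i φ
  have hf : ∀ b ∈ P, (k * h0) b = h0 b := fun b hb => k3 _ fun q e1 e2 =>
    k1 q (suffix_mem (F := h0 '' P) (by
      rintro _ ⟨c, hc, rfl⟩
      exact ⟨_, hP.down c hc, hh0.1.1 c⟩) (h0 b).1 e1 ⟨b, hb, Prod.ext rfl e2⟩)
  have hm := FQ_mul hk (FQ_mono (Set.empty_subset _) hh0)
  refine ⟨k * h0, ⟨hm.1, hm.2.1, fun b hb => (hf b (hEP hb)).trans (hh0.2.2 b hb)⟩, hf, ?_⟩
  rw [Perm.mul_apply, e0, k4, k2]
  rfl

/-- The cofinal ultrafilter of the orbit of an atom. -/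
noncomputable def pa (E0 : Set (Aq I)) (a : Aq I) : Ultrafilter ℚ :=
  (cofinal_ex {q | ∃ h ∈ FQ E0, hd (h a) = q}).choose

theorem pa_map {g : Perm (Aq I)} (hg : g ∈ FQ E0) (a : Aq I) : pa E0 (g a) = pa E0 a := by
  have e : {q | ∃ h ∈ FQ E0, hd (h (g a)) = q} = {q | ∃ h ∈ FQ E0, hd (h a) = q} :=
    Set.ext fun q => ⟨fun ⟨h, hh, e⟩ => ⟨h * g, FQ_mul hh hg, e⟩,
      fun ⟨h, hh, e⟩ => ⟨h * g⁻¹, FQ_mul hh (FQ_inv hg), by simpa using e⟩⟩
  exact congrArg (fun O => (cofinal_ex O).choose) e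

theorem full : ∀ (L : List (Aq I)) (P : Set (Aq I)), ∀ h0 ∈ FQ E0, ∀ x0 : Aq I → ℚ, Cl P →
    E0 ⊆ P → (∀ b ∈ P, b ∉ E0 → hd (h0 b) = x0 b) → L.Pairwise Lt → (∀ a ∈ L, a ∉ E0) →
    (∀ a ∈ L, ∀ b ∈ P, b ∉ E0 → Lt b a) → (∀ a ∈ L, pq a ∈ P ∨ pq a ∈ L) →
    ∀ᶠ x : Aq I → ℚ in Tn (pa E0) L x0,
      ∃ h ∈ FQ E0, ∀ b, b ∈ P ∨ b ∈ L → b ∉ E0 → hd (h b) = x b
  | [], _, h0, hh0, _, _, _, hx, _, _, _, _ =>
    ⟨h0, hh0, fun b hb => hx b (hb.resolve_right List.not_mem_nil)⟩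
  | a :: L, P, h0, hh0, x0, hP, hEP, hx, hs, ho, hlt, hp => by
    have ha0 := ho a List.mem_cons_self
    have hl := hlt a List.mem_cons_self
    have ha : a ∉ P := fun k => Lt.irrefl a (hl a k ha0)
    obtain ⟨hs1, hs2⟩ := List.pairwise_cons.1 hs
    have hpa : pq a ∈ P := (hp a List.mem_cons_self).resolve_right fun k => by
      have h1 : a.1.length ≤ (pq a).1.length := by
        rcases List.mem_cons.1 k with k | k
        · rw [k]
        · exact (hs1 _ k).len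
      have h2 := List.length_pos_iff.2 fun e : a.1 = [] => ha (hP.root e)
      simp only [pq, List.length_tail] at h1
      omega
    rw [tn_cons]
    filter_upwards [(cofinal_ex {q | ∃ h ∈ FQ E0, hd (h a) = q}).choose_spec _ ⟨h0, hh0, rfl⟩]
    rintro _ ⟨⟨h, hh, rfl⟩, hle⟩
    obtain ⟨h1, hh1, e1, e2⟩ := step hEP hP hh0 ha hl hh hle
    refine (full L (insert a P) h1 hh1 _ ⟨(hP.fin.insert a).subset fun b hb =>
      hb.1.imp id fun k => ⟨k, hb.2⟩, fun b hb => Or.inr (hP.root hb), ?_⟩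
      (fun b hb => Or.inr (hEP hb)) ?_ hs2 (fun b hb => ho b (List.mem_cons_of_mem _ hb)) ?_
      fun b hb => ?_).mono fun x ⟨k, hk, e⟩ => ⟨k, hk, fun b hb => e b ?_⟩
    · rintro b (rfl | hb)
      · exact Or.inr hpa
      · exact Or.inr (hP.down b hb)
    · rintro b (rfl | hb) hb0
      · simp only [Function.update_self, e2]
      · have hne : b ≠ a := fun k => ha (k ▸ hb)
        simp only [Function.update, dif_neg hne, e1 b hb, hx b hb hb0]
    · rintro b hb c (rfl | hc) hc0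
      · exact hs1 b hb
      · exact hlt b (List.mem_cons_of_mem _ hb) c hc hc0
    · rcases hp b (List.mem_cons_of_mem _ hb) with k | k
      · exact Or.inl (Or.inr k)
      · exact (List.mem_cons.1 k).imp Or.inl id
    · rcases hb with hb | hb
      · exact Or.inl (Or.inr hb)
      · exact (List.mem_cons.1 hb).imp Or.inl id

/-- Sorted lists of atoms outside `E0` that contain the parents outside `E0`. -/
structure Ok (E0 : Set (Aq I)) (L : List (Aq I)) : Prop where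
  srt : L.Pairwise Lt
  out : ∀ a ∈ L, a ∉ E0
  par : ∀ a ∈ L, pq a ∈ E0 ∨ pq a ∈ L

theorem ok_ex {s : Set (Aq I)} (hs : s.Finite) (h1 : ∀ a ∈ s, a ∉ E0)
    (h2 : ∀ a ∈ s, pq a ∈ E0 ∨ pq a ∈ s) : ∃ L, Ok E0 L ∧ ∀ a, a ∈ L ↔ a ∈ s := by
  classical
  let := linearOrderOfSTO (Lt (I := I))
  have hm : ∀ a, a ∈ hs.toFinset.sort ↔ a ∈ s := fun a => by
    rw [Finset.mem_sort, hs.mem_toFinset]
  exact ⟨_, ⟨List.sortedLT_iff_pairwise.1 (Finset.sortedLT_sort _), fun a ha => h1 a ((hm a).1 ha),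
    fun a ha => (h2 a ((hm a).1 ha)).imp id (hm _).2⟩, hm⟩

theorem Ok.merge {L L' : List (Aq I)} (h : Ok E0 L) (h' : Ok E0 L') :
    ∃ K, Ok E0 K ∧ L ⊆ K ∧ L' ⊆ K := by
  obtain ⟨K, hK, hm⟩ := ok_ex (E0 := E0) (L.finite_toSet.union L'.finite_toSet)
    (fun a ha => ha.elim (h.out a) (h'.out a))
    fun a ha => ha.elim (fun k => (h.par a k).imp id Or.inl) fun k => (h'.par a k).imp id Or.inr
  exact ⟨K, hK, fun a ha => (hm a).2 (Or.inl ha), fun a ha => (hm a).2 (Or.inr ha)⟩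

theorem Ok.agree (hE : Cl E0) {L : List (Aq I)} (hL : Ok E0 L) {h h' : Perm (Aq I)}
    (hh : h ∈ FQ E0) (hh' : h' ∈ FQ E0) (e : ∀ a ∈ L, hd (h a) = hd (h' a)) :
    ∀ (w : Wq.{u}) (i : I), (w, i) ∈ E0 ∨ (w, i) ∈ L → h (w, i) = h' (w, i)
  | [], _, _ => (hh.2.2 _ (hE.root rfl)).trans (hh'.2.2 _ (hE.root rfl)).symm
  | c :: w, i, k => k.elim (fun k => (hh.2.2 _ k).trans (hh'.2.2 _ k).symm) fun k =>
    aq_ext (by rw [← hh.1.1, ← hh'.1.1]; exact hL.agree hE hh hh' e w i (hL.par _ k))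
      ((hh.2.1 _).trans (hh'.2.1 _).symm) (e _ k)

/-- `Q` depends only on the values at `L`. -/
def Det (E0 : Set (Aq I)) (L : List (Aq I)) (Q : Perm (Aq I) → Prop) : Prop :=
  ∀ h ∈ FQ E0, ∀ h' ∈ FQ E0, (∀ a ∈ L, h a = h' a) → Q h → Q h'

def Big (E0 : Set (Aq I)) (L : List (Aq I)) (Q : Perm (Aq I) → Prop) : Prop :=
  ∀ᶠ x : Aq I → ℚ in Tn (pa E0) L fun _ => 0, ∃ h ∈ FQ E0, (∀ a ∈ L, hd (h a) = x a) ∧ Q h

theorem Det.mono {L L' : List (Aq I)} {Q : Perm (Aq I) → Prop} (h : Det E0 L Q) (hs : L ⊆ L') :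
    Det E0 L' Q := fun k hk k' hk' e => h k hk k' hk' fun a ha => e a (hs ha)

theorem Ok.big (hE : Cl E0) {L : List (Aq I)} (hL : Ok E0 L) : Big E0 L fun _ => True :=
  (full L E0 1 (FQ_one _) _ hE le_rfl (fun _ h h' => (h' h).elim) hL.srt hL.out
    (fun _ _ _ h h' => (h' h).elim) hL.par).mono fun _ ⟨h, hh, e⟩ =>
      ⟨h, hh, fun a ha => e a (Or.inr ha) (hL.out a ha), trivial⟩

theorem Big.mono (hE : Cl E0) {L L' : List (Aq I)} (hL : Ok E0 L) (hL' : Ok E0 L') (hs : L ⊆ L')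
    {Q : Perm (Aq I) → Prop} (hQ : Det E0 L Q) (h : Big E0 L Q) : Big E0 L' Q := by
  classical
  have e : L'.filter (fun a => decide (a ∈ L)) = L :=
    (hL'.srt.filter _).eq_of_mem_iff hL.srt fun a => by
      rw [List.mem_filter, decide_eq_true_eq]
      exact ⟨fun k => k.2, fun k => ⟨hs k, k⟩⟩
  have h1 := (tn_filter (pa E0) (fun a => decide (a ∈ L))
    (fun x => ∃ h ∈ FQ E0, (∀ a ∈ L, hd (h a) = x a) ∧ Q h) (fun x x' k =>
      exists_congr fun _ => and_congr Iff.rfl (and_congr (forall₂_congr fun a ha => by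
        rw [k a (decide_eq_true ha)]) Iff.rfl)) L' (fun _ => 0) (fun _ => 0) fun _ _ => rfl).2
    (by rw [e]; exact h)
  refine (h1.and (hL'.big hE)).mono fun x ⟨⟨k, hk, k1, k2⟩, k', hk', k3, _⟩ =>
    ⟨k', hk', k3, hQ k hk k' hk' (fun a ha => ?_) k2⟩
  exact hL.agree hE hk hk' (fun b hb => (k1 b hb).trans (k3 b (hs hb)).symm) a.1 a.2 (Or.inr ha)

/-- Finitely determined predicates. -/
def Fd (E0 : Set (Aq I)) (Q : Perm (Aq I) → Prop) : Prop := ∃ L, Ok E0 L ∧ Det E0 L Q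

/-- Large predicates. -/
def Lg (E0 : Set (Aq I)) (Q : Perm (Aq I) → Prop) : Prop :=
  ∃ L, Ok E0 L ∧ Det E0 L Q ∧ Big E0 L Q

variable {Q Q' R : Perm (Aq I) → Prop}

theorem Lg.ex (h : Lg E0 Q) : ∃ g ∈ FQ E0, Q g := by
  obtain ⟨L, -, -, h⟩ := h
  obtain ⟨x, g, hg, -, k⟩ := Eventually.exists h
  exact ⟨g, hg, k⟩

theorem Lg.and (hE : Cl E0) (h : Lg E0 Q) (h' : Lg E0 Q') (hR : Fd E0 R)
    (k : ∀ g ∈ FQ E0, Q g → Q' g → R g) : Lg E0 R := by
  obtain ⟨L, h1, h2, h3⟩ := h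
  obtain ⟨L', h1', h2', h3'⟩ := h'
  obtain ⟨N, n1, n2⟩ := hR
  obtain ⟨K0, a1, a2, a3⟩ := h1.merge h1'
  obtain ⟨K, b1, b2, b3⟩ := a1.merge n1
  refine ⟨K, b1, n2.mono b3, (Eventually.and (h3.mono hE h1 b1 (List.Subset.trans a2 b2) h2)
    (h3'.mono hE h1' b1 (List.Subset.trans a3 b2) h2')).mono
      fun x ⟨⟨g, hg, e, q⟩, g', hg', e', q'⟩ => ⟨g', hg', e', k g' hg' ?_ q'⟩⟩
  exact h2.mono (List.Subset.trans a2 b2) g hg g' hg' (fun a ha => b1.agree hE hg hg'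
    (fun b hb => (e b hb).trans (e' b hb).symm) a.1 a.2 (Or.inr ha)) q

theorem lg_or (hE : Cl E0) (h : Fd E0 Q) (h' : Fd E0 Q') (k : ∀ g ∈ FQ E0, Q g ∨ Q' g) :
    Lg E0 Q ∨ Lg E0 Q' := by
  obtain ⟨L, h1, h2⟩ := h
  obtain ⟨L', h1', h2'⟩ := h'
  obtain ⟨K, a1, a2, a3⟩ := h1.merge h1'
  exact (Ultrafilter.eventually_or.1 (Eventually.mono (a1.big hE) fun x ⟨g, hg, e, _⟩ =>
    (k g hg).imp (fun q => ⟨g, hg, e, q⟩) fun q => ⟨g, hg, e, q⟩)).imp
      (fun b => ⟨K, a1, h2.mono a2, b⟩) fun b => ⟨K, a1, h2'.mono a3, b⟩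

theorem Lg.mul (hE : Cl E0) (h : Lg E0 Q) {g : Perm (Aq I)} (hg : g ∈ FQ E0) :
    Lg E0 fun k => Q (k * g) := by
  classical
  obtain ⟨L, h1, h2, h3⟩ := h
  refine ⟨L.map g, ⟨List.pairwise_map.2 (h1.srt.imp (Lt.map (FQ_mono hE.root hg))), ?_, ?_⟩,
    fun k hk k' hk' e => h2 _ (FQ_mul hk hg) _ (FQ_mul hk' hg)
      fun a ha => e _ (List.mem_map_of_mem ha), ?_⟩
  · refine List.forall_mem_map.2 fun a ha k => h1.out a ha ?_
    rwa [g.injective (hg.2.2 _ k)] at k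
  · refine List.forall_mem_map.2 fun a ha => ?_
    rw [← hg.1.1]
    exact (h1.par a ha).imp (fun k => by rwa [hg.2.2 _ k]) List.mem_map_of_mem
  · refine ((tn_map (pa E0) g.injective (pa_map hg) _ L fun _ => 0).2 h3).mono
      fun x ⟨k, hk, e, q⟩ => ⟨k * g⁻¹, FQ_mul hk (FQ_inv hg),
        List.forall_mem_map.2 fun a ha => ?_, (congrArg Q (inv_mul_cancel_right k g)).mpr q⟩
    simpa using e a ha

theorem fd_smul (hE : Cl E0) (y : (fq I).M) (C : VV (Aq I) → Prop) :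
    Fd E0 fun h => C (h • y.1) := by
  obtain ⟨F, hF⟩ := su_ex y
  obtain ⟨L, hL, hm⟩ := ok_ex (E0 := E0) (s := F \ E0)
    (hF.fin.subset fun a ha => ⟨ha.1, fun k => ha.2 (hE.root k)⟩) (fun _ h => h.2)
    fun a ha => (em (pq a ∈ E0)).imp id fun k => ⟨hF.down a ha.1, k⟩
  refine ⟨L, hL, fun h hh h' hh' e k => ?_⟩
  have c1 := FQ_mul (FQ_inv hh') hh
  have c2 := hF.fix _ ⟨c1.1, c1.2.1, fun a ha => by
    by_cases k : a ∈ E0
    · exact c1.2.2 a k
    · rw [Perm.mul_apply, Perm.inv_eq_iff_eq, e a ((hm a).2 ⟨ha, k⟩)]⟩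
  rw [mul_smul, inv_smul_eq_iff] at c2
  exact (congrArg C c2).mp k

/-- Every filter base of the model extends to an ultrafilter of the model. -/
theorem ultQ (x F : (fq I).M) (h0 : ∃ y, (fq I).E y F)
    (h1 : ∀ y, (fq I).E y F → (∀ a, (fq I).E a y → (fq I).E a x) ∧ ∃ a, (fq I).E a y)
    (h2 : ∀ y y', (fq I).E y F → (fq I).E y' F →
      ∃ z, (fq I).E z F ∧ ∀ a, (fq I).E a z → (fq I).E a y ∧ (fq I).E a y') :
    ∃ s, (∀ y, (fq I).E y F → (fq I).E y s) ∧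
      (∀ y, (fq I).E y s → (∀ a, (fq I).E a y → (fq I).E a x) ∧ ∃ a, (fq I).E a y) ∧
      (∀ y y' z, (fq I).E y s → (fq I).E y' s → ¬ (fq I).U z →
        (∀ a, (fq I).E a z → (fq I).E a x) →
        (∀ a, (fq I).E a y → (fq I).E a y' → (fq I).E a z) → (fq I).E z s) ∧
      ∀ y z, ¬ (fq I).U y → (∀ a, (fq I).E a y → (fq I).E a x) → ¬ (fq I).U z →
        (∀ a, (fq I).E a z → (fq I).E a x) →
        (∀ a, (fq I).E a x → (fq I).E a y ∨ (fq I).E a z) → (fq I).E y s ∨ (fq I).E z s := by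
  obtain ⟨A, hA⟩ := su_ex x
  obtain ⟨B, hB⟩ := su_ex F
  have hE : Cl (A ∪ B) := ⟨(hA.fin.union hB.fin).subset fun a ha =>
    ha.1.imp (fun k => ⟨k, ha.2⟩) fun k => ⟨k, ha.2⟩, fun a ha => Or.inl (hA.root ha),
    fun a ha => ha.imp (hA.down a) (hB.down a)⟩
  have : Nonempty {y // (fq I).E y F} := h0.elim fun y hy => ⟨⟨y, hy⟩⟩
  have hne : (⨅ y : {y // (fq I).E y F}, 𝓟 {a | (fq I).E a y.1}).NeBot :=
    iInf_neBot_of_directed' (fun y y' => by
      obtain ⟨z, hz, k⟩ := h2 y.1 y'.1 y.2 y'.2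
      exact ⟨⟨z, hz⟩, principal_mono.2 fun a ha => (k a ha).1,
        principal_mono.2 fun a ha => (k a ha).2⟩) fun y => principal_neBot_iff.2 (h1 y.1 y.2).2
  obtain ⟨u0, hu0⟩ := Ultrafilter.exists_le (⨅ y : {y // (fq I).E y F}, 𝓟 {a | (fq I).E a y.1})
  have hF : ∀ y, (fq I).E y F → ∀ᶠ a in u0, (fq I).E a y := fun y hy =>
    le_principal_iff.1 (hu0.trans (iInf_le _ (⟨y, hy⟩ : {y // (fq I).E y F})))
  let Q : (fq I).M → Perm (Aq I) → Prop := fun y h => ∀ᶠ a : (fq I).M in u0, mem a.1 (h • y.1)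
  have hd : ∀ y, Fd (A ∪ B) (Q y) := fun y =>
    fd_smul hE y fun v => ∀ᶠ a : (fq I).M in u0, mem a.1 v
  have hQ : ∀ {g e}, (fq I).Ind g e → ∀ y, Q y g ↔ ∀ᶠ a in u0, (fq I).E a (e y) :=
    fun he y => by simp only [Q, Frame.E, he y]
  obtain ⟨pw, -, hpw⟩ := Frame.powerM x
  obtain ⟨s, -, hs⟩ := Frame.sepM pw (fun y => Lg (A ∪ B) (Q y)) (fq_mem hE.fin)
    fun g hg e he y => ⟨fun h => by
      simpa only [Q, he y, ← mul_smul, mul_assoc, inv_mul_cancel, mul_one] using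
        h.mul hE (FQ_inv hg), fun h => by
      simpa only [Q, he y, ← mul_smul] using h.mul hE hg⟩
  refine ⟨s, fun y hy => (hs y).2 ⟨(hpw y).2 ⟨fun k => ?_, (h1 y hy).1⟩,
    (lg_or hE (hd y) (hd y) fun g hg => Or.inl ?_).elim id id⟩, fun y hy => ?_,
    fun y y' z hy hy' hz hz' k => (hs z).2 ⟨(hpw z).2 ⟨hz, hz'⟩,
      ((hs y).1 hy).2.and hE ((hs y').1 hy').2 (hd z) fun g hg q q' => ?_⟩,
    fun y z hy hy' hz hz' k => (lg_or hE (hd y) (hd z) fun g hg => ?_).imp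
      (fun q => (hs y).2 ⟨(hpw y).2 ⟨hy, hy'⟩, q⟩) fun q => (hs z).2 ⟨(hpw z).2 ⟨hz, hz'⟩, q⟩⟩
  · exact (h1 y hy).2.elim fun a ha => Frame.urE k ha
  · obtain ⟨e, he⟩ := ind_fq hg
    refine (hQ he y).2 (hF _ ?_)
    rw [← he.fix (hB.fix g (FQ_mono Set.subset_union_right hg)), he.hE]
    exact hy
  · obtain ⟨g, hg, q⟩ := ((hs y).1 hy).2.ex
    obtain ⟨e, he⟩ := ind_fq hg
    obtain ⟨a, ha⟩ := ((hQ he y).1 q).exists
    obtain ⟨a, rfl⟩ := e.surjective a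
    exact ⟨((hpw y).1 ((hs y).1 hy).1).2, a, (he.hE _ _).1 ha⟩
  · obtain ⟨e, he⟩ := ind_fq hg
    refine (hQ he z).2 ((((hQ he y).1 q).and ((hQ he y').1 q')).mono fun a ha => ?_)
    obtain ⟨a, rfl⟩ := e.surjective a
    exact (he.hE _ _).2 (k a ((he.hE _ _).1 ha.1) ((he.hE _ _).1 ha.2))
  · obtain ⟨e, he⟩ := ind_fq hg
    obtain ⟨t, ht⟩ := h0
    rw [hQ he, hQ he, ← Ultrafilter.eventually_or]
    refine (hF t ht).mono fun a ha => ?_
    obtain ⟨a, rfl⟩ := e.surjective a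
    have h3 := (h1 t ht).1 _ ha
    rw [← he.fix (hA.fix g (FQ_mono Set.subset_union_left hg)), he.hE] at h3
    rw [he.hE, he.hE]
    exact k a h3

end Pool.Agent.P.MP_4a6a31_lc.OP
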